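import Pool.Agent.W593.IR.Stm3

set_option autoImplicit false

namespace Pool.Agent.W735.IR

open Finset Pool.Agent.W890.SF Filter Topology Pool.Agent.W593.IR

theorem NG_add_NL {V : Type} [Fintype V] (y : V → ℝ) (j : ℕ) :
    NG y j + NL y j = Fintype.card V ^ j := by
  classical
  unfold NG NL
  have h : {f : Fin j → V | ∑ i, y (f i) < 1} = {f : Fin j → V | 1 ≤ ∑ i, y (f i)}ᶜ := by
    ext f
    simp
  rw [h, Set.ncard_add_ncard_compl, Nat.card_eq_fintype_card, Fintype.card_fun, Fintype.card_fin]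

theorem NG_mono {V : Type} [Fintype V] (y y' : V → ℝ) (h : ∀ v, y v ≤ y' v) (j : ℕ) :
    NG y j ≤ NG y' j := by
  unfold NG
  refine Set.ncard_le_ncard ?_ (Set.toFinite _)
  intro f hf
  have h1 : 1 ≤ ∑ i, y (f i) := hf
  exact h1.trans (Finset.sum_le_sum fun i _ => h _)

theorem exv : S_EXV := by
  intro h3 k ρ hk hρ0 hρ1 hVB V _ _ y s hy hs hsV hsupp hsum hρ
  obtain ⟨S, hSs, -, hSc⟩ := Finset.exists_subsuperset_card_eq
    (subset_univ (univ.filter (fun v => y v ≠ 0))) hsupp (by rwa [card_univ])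
  have hs0 : (0 : ℝ) < s := by exact_mod_cast hs
  have hk0 : (0 : ℝ) < (k : ℝ) := by exact_mod_cast hk
  set κ : ℝ := ((s : ℝ) / (k : ℝ) - ∑ v, y v) / s with hκ
  have hκ0 : 0 ≤ κ := by
    refine div_nonneg ?_ hs0.le
    rw [sub_nonneg, le_div_iff₀ hk0]
    linarith
  set y' : V → ℝ := fun v => if v ∈ S then y v + κ else 0 with hy'
  have hyS : ∀ v, v ∉ S → y v = 0 := by
    intro v hv
    by_contra h
    exact hv (hSs (mem_filter.2 ⟨mem_univ v, h⟩))
  have hyy : ∀ v, y v ≤ y' v := by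
    intro v
    by_cases hv : v ∈ S
    · simp only [hy', if_pos hv]
      linarith
    · simp only [hy', if_neg hv]
      rw [hyS v hv]
  have hy'0 : ∀ v, 0 ≤ y' v := fun v => (hy v).trans (hyy v)
  have hy'S : ∀ v, v ∉ S → y' v = 0 := by
    intro v hv
    simp only [hy', if_neg hv]
  set z : S → ℝ := fun v => y' v.1 with hz
  have hcardS : Fintype.card S = s := by rw [Fintype.card_coe, hSc]
  haveI : Nonempty S := by
    rw [← Fintype.card_pos_iff, hcardS]
    exact hs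
  have hz0 : ∀ v, 0 ≤ z v := fun v => hy'0 _
  have hzsum : (k : ℝ) * ∑ v, z v = (Fintype.card S : ℝ) := by
    have e1 : ∑ v, z v = ∑ v ∈ S, (y v + κ) := by
      rw [hz]
      have := Finset.sum_coe_sort S y'
      rw [this]
      refine Finset.sum_congr rfl fun v hv => ?_
      simp only [hy', if_pos hv]
    have e2 : ∑ v ∈ S, y v = ∑ v, y v :=
      Finset.sum_subset (subset_univ _) fun v _ hv => hyS v hv
    rw [e1, Finset.sum_add_distrib, e2, Finset.sum_const, nsmul_eq_mul, hSc, hcardS, hκ]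
    field_simp
    ring
  have hcR : (Fintype.card S : ℝ) = s := by exact_mod_cast hcardS
  have hadd : ∀ j, (NG z j : ℝ) + (NL z j : ℝ) = (s : ℝ) ^ j := by
    intro j
    have := NG_add_NL z j
    rw [hcardS] at this
    exact_mod_cast this
  set N : ℝ := (Fintype.card V : ℝ) with hN
  have hsN : (s : ℝ) ≤ N := by rw [hN]; exact_mod_cast hsV
  have hN0 : 0 < N := by linarith
  have hv := hVB S z hz0 hzsum
  rw [hcR] at hv
  have hmono := NG_mono y y' hyy k
  have hcnt := h3 V y' S k hy'0 hy'S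
  have hmonoR : (NG y k : ℝ) ≤ (NG y' k : ℝ) := by exact_mod_cast hmono
  have hbin : ∑ j ∈ range (k + 1), (k.choose j : ℝ) * (1 - ρ) ^ (k - j) * ρ ^ j = 1 := by
    have h1 := add_pow ρ (1 - ρ) k
    rw [show ρ + (1 - ρ) = 1 by ring, one_pow] at h1
    refine Eq.trans ?_ h1.symm
    refine Finset.sum_congr rfl fun j _ => ?_
    ring
  have hterm : (NG y' k : ℝ) = N ^ k * (1 - ∑ r ∈ range (k + 1),
      (k.choose r : ℝ) * (1 - ρ) ^ (k - r) * ρ ^ r * ((NL z r : ℝ) / (s : ℝ) ^ r)) := by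
    have h5 : (1 : ℝ) - ∑ r ∈ range (k + 1),
        (k.choose r : ℝ) * (1 - ρ) ^ (k - r) * ρ ^ r * ((NL z r : ℝ) / (s : ℝ) ^ r) =
        ∑ r ∈ range (k + 1), ((k.choose r : ℝ) * (1 - ρ) ^ (k - r) * ρ ^ r -
        (k.choose r : ℝ) * (1 - ρ) ^ (k - r) * ρ ^ r * ((NL z r : ℝ) / (s : ℝ) ^ r)) := by
      rw [Finset.sum_sub_distrib, hbin]
    rw [hcnt, h5, Finset.mul_sum]
    refine Finset.sum_congr rfl fun j hj => ?_
    have hj' : j ≤ k := by
      have := mem_range.1 hj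
      omega
    have hsplit : N ^ k = N ^ (k - j) * N ^ j := by
      rw [← pow_add]
      congr 1
      omega
    have e1 : N ^ (k - j) * (1 - ρ) ^ (k - j) = (N - s) ^ (k - j) := by
      rw [← mul_pow, ← hρ]
      congr 1
      field_simp
    have e2 : N ^ j * ρ ^ j = (s : ℝ) ^ j := by
      rw [← mul_pow, ← hρ]
      congr 1
      field_simp
    have e3 : (s : ℝ) ^ j * ((NL z j : ℝ) / (s : ℝ) ^ j) = (NL z j : ℝ) := by
      field_simp
    have e4 : (NG z j : ℝ) = (s : ℝ) ^ j - NL z j := by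
      linarith [hadd j]
    rw [hSc]
    calc (k.choose j : ℝ) * (N - (s : ℝ)) ^ (k - j) * (NG z j : ℝ)
        = (k.choose j : ℝ) * (N ^ (k - j) * (1 - ρ) ^ (k - j)) *
          ((N ^ j * ρ ^ j) - (N ^ j * ρ ^ j) * ((NL z j : ℝ) / (s : ℝ) ^ j)) := by
          rw [e1, e2, e3, e4]
      _ = N ^ k * ((k.choose j : ℝ) * (1 - ρ) ^ (k - j) * ρ ^ j -
          (k.choose j : ℝ) * (1 - ρ) ^ (k - j) * ρ ^ j * ((NL z j : ℝ) / (s : ℝ) ^ j)) := by
          rw [hsplit]
          ring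
  refine hmonoR.trans ?_
  rw [hterm]
  refine mul_le_mul_of_nonneg_left ?_ (by positivity)
  rcases min_choice (1 - ρ ^ k) ((1 - ρ / k) ^ k) with h | h
  · refine le_trans ?_ (le_max_left _ _)
    rw [h] at hv
    linarith
  · refine le_trans ?_ (le_max_right _ _)
    rw [h] at hv
    linarith

end Pool.Agent.W735.IR
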